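import Mathlib

set_option autoImplicit false

/-!
# Two-colourings of triples: the combinatorial core for an arbitrary infinite cardinal

This adapts lemmas of the starting file `Pool.Agent.Results.MP_dc3585_lc.BothClasses` from countable
sets to sets of size at most `μ`.
-/

open Cardinal

universe u

namespace Pool.Agent.Y587.TC

section Sm

variable {α β : Type u} {μ : Cardinal.{u}}

/-- `s` has at most `μ` elements -/
def Sm (μ : Cardinal.{u}) (s : Set α) : Prop := #s ≤ μ

theorem Sm.mono {s t : Set α} (h : Sm μ t) (hst : s ⊆ t) : Sm μ s :=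
  (mk_le_mk_of_subset hst).trans h

theorem Sm.union (hμ : ℵ₀ ≤ μ) {s t : Set α} (hs : Sm μ s) (ht : Sm μ t) : Sm μ (s ∪ t) :=
  (mk_union_le s t).trans (add_le_of_le hμ hs ht)

theorem sm_iUnion (hμ : ℵ₀ ≤ μ) {ι : Type u} (hι : #ι ≤ μ) {f : ι → Set α} (h : ∀ i, Sm μ (f i)) :
    Sm μ (⋃ i, f i) := by
  refine (mk_iUnion_le_sum_mk (f := f)).trans ?_
  refine (sum_le_sum (fun i => #(f i)) (fun _ => μ) h).trans ?_
  rw [sum_const']
  exact (mul_le_mul' hι le_rfl).trans (mul_eq_self hμ).le

theorem Sm.biUnion (hμ : ℵ₀ ≤ μ) {s : Set β} (hs : Sm μ s) {f : β → Set α}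
    (h : ∀ i ∈ s, Sm μ (f i)) : Sm μ (⋃ i ∈ s, f i) := by
  rw [Set.biUnion_eq_iUnion]
  exact sm_iUnion hμ hs fun i => h i.1 i.2

theorem sm_empty : Sm μ (∅ : Set α) := by
  unfold Sm
  simp

theorem sm_subsingleton (hμ : ℵ₀ ≤ μ) {s : Set α} (hs : s.Subsingleton) : Sm μ s :=
  (mk_le_one_iff_set_subsingleton.2 hs).trans (one_lt_aleph0.le.trans hμ)

theorem sm_singleton (hμ : ℵ₀ ≤ μ) (a : α) : Sm μ ({a} : Set α) :=
  sm_subsingleton hμ Set.subsingleton_singleton

theorem sm_finset (hμ : ℵ₀ ≤ μ) (s : Finset α) : Sm μ (s : Set α) :=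
  (lt_aleph0_of_finite _).le.trans hμ

theorem sm_of_injOn {s : Set α} {t : Set β} {f : α → β} (h : Set.MapsTo f s t)
    (hf : Set.InjOn f s) (ht : Sm μ t) : Sm μ s := by
  refine le_trans ?_ ht
  exact mk_le_of_injective (f := fun x : s => (⟨f x.1, h x.2⟩ : t))
    fun x y hxy => Subtype.ext (hf x.2 y.2 (congrArg Subtype.val hxy))

end Sm

section Good

/-- Every subset of size above `μ` of a well-order contains a subset of size above `μ` with
initial segments of size at most `μ`. -/
lemma exists_good {α : Type u} {μ : Cardinal.{u}} (P : α → α → Prop) [IsWellOrder α P] (A : Set α)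
    (hA : ¬ Sm μ A) :
    ∃ A' ⊆ A, ¬ Sm μ A' ∧ ∀ a ∈ A', Sm μ {x | x ∈ A' ∧ P x a} := by
  let A' : Set α := {a | a ∈ A ∧ Sm μ {x | x ∈ A ∧ P x a}}
  refine ⟨A', fun a ha => ha.1, ?_, ?_⟩
  · by_cases hne : (A \ A').Nonempty
    · have wf : WellFounded P := IsWellFounded.wf
      have hmem := WellFounded.min_mem wf _ hne
      set t := WellFounded.min wf _ hne with ht
      intro hc
      apply hmem.2
      refine ⟨hmem.1, hc.mono ?_⟩
      intro s hs
      by_contra hs0
      have : ¬ P s t := by
        rw [ht]
        exact WellFounded.not_lt_min wf (A \ A') (x := s) ⟨hs.1, hs0⟩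
      exact this hs.2
    · have hsub : A ⊆ A' := by
        intro a ha
        by_contra h
        exact hne ⟨a, ha, h⟩
      exact fun hc => hA (hc.mono hsub)
  · intro a ha
    have hss : {x | x ∈ A' ∧ P x a} ⊆ {x | x ∈ A ∧ P x a} := fun x hx => ⟨hx.1.1, hx.2⟩
    exact ha.2.mono hss

lemma bool_not {a b : Bool} (h : a ≠ b) : a = !b := by
  cases a <;> cases b <;> simp at h <;> rfl

lemma bool_cases {a b : Bool} (e : Bool) (h : a ≠ b) : e = b ∨ e = a := by
  cases a <;> cases b <;> cases e <;> simp at h <;> simp

end Good

section Core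

variable {K : Type u} [LinearOrder K] [WellFoundedLT K] {μ : Cardinal.{u}}

/-- `x` and `y` first differ at `k`, where `x` takes the value `e`. -/
def Sp (e : Bool) (k : K) (x y : K → Bool) : Prop :=
  (∀ j < k, x j = y j) ∧ x k = e ∧ y k = !e

omit [WellFoundedLT K] in
lemma sp_flip {e : Bool} {k : K} {x y : K → Bool} (h : Sp e k x y) : Sp (!e) k y x :=
  ⟨fun j hj => (h.1 j hj).symm, h.2.2, by rw [h.2.1]; simp⟩

omit [WellFoundedLT K] in
lemma sp_unique {e : Bool} {k k' : K} {x y : K → Bool} (h : Sp e k x y) (h' : Sp e k' x y) :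
    k = k' := by
  rcases lt_trichotomy k k' with hlt | heq | hlt
  · have := h'.1 k hlt
    rw [h.2.1, h.2.2] at this
    cases e <;> simp at this
  · exact heq
  · have := h.1 k' hlt
    rw [h'.2.1, h'.2.2] at this
    cases e <;> simp at this

omit [WellFoundedLT K] in
lemma sp_asymm {e : Bool} {k k' : K} {x y : K → Bool} (h : Sp e k x y) (h' : Sp e k' y x) :
    False := by
  rcases lt_trichotomy k k' with hlt | heq | hlt
  · have := h'.1 k hlt
    rw [h.2.1, h.2.2] at this
    cases e <;> simp at this
  · subst heq
    have h1 := h.2.1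
    rw [h'.2.2] at h1
    cases e <;> simp at h1
  · have := h.1 k' hlt
    rw [h'.2.1, h'.2.2] at this
    cases e <;> simp at this

omit [WellFoundedLT K] in
lemma sp_irrefl {e : Bool} {k : K} {x : K → Bool} (h : Sp e k x x) : False := sp_asymm h h

lemma sp_exists {x y : K → Bool} (h : x ≠ y) : (∃ k, Sp false k x y) ∨ (∃ k, Sp false k y x) := by
  have hne : {k | x k ≠ y k}.Nonempty := by
    by_contra hcon
    rw [Set.not_nonempty_iff_eq_empty] at hcon
    apply h
    funext k
    by_contra hk
    have : k ∈ {k | x k ≠ y k} := hk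
    rw [hcon] at this
    exact this
  have hmem := WellFounded.min_mem (wellFounded_lt (α := K)) _ hne
  set k := WellFounded.min (wellFounded_lt (α := K)) _ hne with hk
  have hlt : ∀ j < k, x j = y j := by
    intro j hj
    by_contra hj2
    have : ¬ j < k := by
      rw [hk]
      exact WellFounded.not_lt_min (wellFounded_lt (α := K)) {k | x k ≠ y k} (x := j) hj2
    exact this hj
  have hmem' : x k ≠ y k := hmem
  cases hx : x k with
  | false =>
    left
    refine ⟨k, hlt, hx, ?_⟩
    cases hy : y k with
    | false => exact absurd (hx.trans hy.symm) hmem'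
    | true => rfl
  | true =>
    right
    refine ⟨k, fun j hj => (hlt j hj).symm, ?_, ?_⟩
    · cases hy : y k with
      | false => rfl
      | true => exact absurd (hx.trans hy.symm) hmem'
    · rw [hx]; rfl

/-- Points of `A` agreeing with `b` up to and including `k`. -/
def N (A : Set (K → Bool)) (b : K → Bool) (k : K) : Set (K → Bool) :=
  {x | x ∈ A ∧ ∀ j ≤ k, x j = b j}

/-- Splitting property: every big node has two big incomparable extensions. -/
def Splits (μ : Cardinal.{u}) (A : Set (K → Bool)) : Prop :=
  ∀ (b : K → Bool) (k : K), ¬ Sm μ (N A b k) →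
    ∃ (c : K → Bool) (l : K), k < l ∧ (∀ j ≤ k, c j = b j) ∧
      ∀ e : Bool, ¬ Sm μ (N A (Function.update c l e) l)

/-- If some big node does not split then there is a big comb. -/
lemma exists_comb (hμ : ℵ₀ ≤ μ) (A : Set (K → Bool)) (h : ¬ Splits μ A) :
    ∃ (b : K → Bool) (L : Set K) (x : K → (K → Bool)), ¬ Sm μ L ∧
      ∀ l ∈ L, x l ∈ A ∧ (∀ j < l, x l j = b j) ∧ x l l ≠ b l := by
  classical
  unfold Splits at h
  push Not at h
  obtain ⟨b0, k0, hbig, hns⟩ := h
  -- the branch
  let b : K → Bool := fun j => if j ≤ k0 then b0 j else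
    decide (∃ c : K → Bool, (∀ i ≤ k0, c i = b0 i) ∧
      ¬ Sm μ (N A (Function.update c j true) j))
  have hb0 : ∀ j ≤ k0, b j = b0 j := by
    intro j hj
    simp only [b]
    rw [if_pos hj]
  have hNmono : ∀ (c : K → Bool) (i j : K), i ≤ j → N A c j ⊆ N A c i :=
    fun c i j hij x hx => ⟨hx.1, fun m hm => hx.2 m (hm.trans hij)⟩
  have claim : ∀ (c : K → Bool) (l : K), (∀ i ≤ k0, c i = b0 i) → ¬ Sm μ (N A c l) →
      ∀ j ≤ l, b j = c j := by
    intro c l hc hN j hj
    by_cases hjk : j ≤ k0
    · rw [hb0 j hjk, hc j hjk]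
    · have hNj : ¬ Sm μ (N A c j) := fun hh => hN (hh.mono (hNmono c j l hj))
      have hbj : b j = decide (∃ c : K → Bool, (∀ i ≤ k0, c i = b0 i) ∧
          ¬ Sm μ (N A (Function.update c j true) j)) := by
        simp only [b]
        rw [if_neg hjk]
      cases hcj : c j with
      | true =>
        rw [hbj, decide_eq_true_iff]
        refine ⟨c, hc, ?_⟩
        rw [← hcj, Function.update_eq_self]
        exact hNj
      | false =>
        rw [hbj, decide_eq_false_iff_not]
        rintro ⟨c2, hc2, hN2⟩
        set c3 := Function.update c2 j true with hc3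
        have hc3k : ∀ i ≤ k0, c3 i = b0 i := by
          intro i hi
          have hij : i ≠ j := fun he => hjk (he ▸ hi)
          rw [hc3, Function.update_of_ne hij]
          exact hc2 i hi
        have hc3j : c3 j = true := by rw [hc3, Function.update_self]
        have hne : {i | c3 i ≠ c i}.Nonempty := ⟨j, by
          show c3 j ≠ c j
          rw [hc3j, hcj]; simp⟩
        have hmem := WellFounded.min_mem (wellFounded_lt (α := K)) _ hne
        set i := WellFounded.min (wellFounded_lt (α := K)) _ hne with hi
        have hmin : ∀ m < i, c3 m = c m := by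
          intro m hm
          by_contra hm2
          have : ¬ m < i := by
            rw [hi]
            exact WellFounded.not_lt_min (wellFounded_lt (α := K)) {i | c3 i ≠ c i} (x := m) hm2
          exact this hm
        have hij : i ≤ j := by
          by_contra hlt
          push Not at hlt
          have := hmin j hlt
          rw [hc3j, hcj] at this
          simp at this
        have hik : k0 < i := by
          by_contra hle
          push Not at hle
          exact hmem ((hc3k i hle).trans (hc i hle).symm)
        obtain ⟨e, he⟩ := hns c i hik hc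
        have hcases : e = c i ∨ e = c3 i := bool_cases e hmem
        rcases hcases with h1 | h1
        · rw [h1, Function.update_eq_self] at he
          exact hNj (he.mono (hNmono c i j hij))
        · apply hN2
          refine he.mono ?_
          intro x hx
          refine ⟨hx.1, fun m hm => ?_⟩
          rcases lt_or_eq_of_le hm with hlt | heq
          · rw [Function.update_of_ne hlt.ne, ← hmin m hlt]
            exact hx.2 m (hm.trans hij)
          · rw [heq, Function.update_self, h1]
            exact hx.2 i hij
  -- the leaving sets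
  let Lv : K → Set (K → Bool) := fun l => {x | x ∈ N A b0 k0 ∧ (∀ j < l, x j = b j) ∧ x l ≠ b l}
  have hLv : ∀ l, Sm μ (Lv l) := by
    intro l
    by_cases hl : l ≤ k0
    · have : Lv l = ∅ := by
        rw [Set.eq_empty_iff_forall_notMem]
        intro x hx
        exact hx.2.2 ((hx.1.2 l hl).trans (hb0 l hl).symm)
      rw [this]
      exact sm_empty
    · by_contra hcon
      have h1 : ¬ Sm μ (N A (Function.update b l (!b l)) l) := by
        intro hh
        apply hcon
        refine hh.mono ?_
        intro x hx
        refine ⟨hx.1.1, fun j hj => ?_⟩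
        rcases lt_or_eq_of_le hj with hlt | heq
        · rw [Function.update_of_ne hlt.ne]
          exact hx.2.1 j hlt
        · rw [heq, Function.update_self]
          exact bool_not hx.2.2
      have h2 := claim (Function.update b l (!b l)) l (by
        intro i hi
        have hil : i ≠ l := fun he => hl (he ▸ hi)
        rw [Function.update_of_ne hil]
        exact hb0 i hi) h1 l le_rfl
      rw [Function.update_self] at h2
      exact absurd h2 (by cases b l <;> simp)
  let L : Set K := {l | (Lv l).Nonempty}
  have hL : ¬ Sm μ L := by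
    intro hLc
    apply hbig
    have hcount : Sm μ ({b} ∪ ⋃ l ∈ L, Lv l) :=
      (sm_singleton hμ b).union hμ (hLc.biUnion hμ (fun l _ => hLv l))
    refine hcount.mono ?_
    intro x hx
    by_cases hxb : x = b
    · exact Or.inl hxb
    · right
      have hne : {i | x i ≠ b i}.Nonempty := by
        by_contra hcon
        rw [Set.not_nonempty_iff_eq_empty] at hcon
        apply hxb
        funext k
        by_contra hk
        have : k ∈ {i | x i ≠ b i} := hk
        rw [hcon] at this
        exact this
      have hmem := WellFounded.min_mem (wellFounded_lt (α := K)) _ hne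
      set i := WellFounded.min (wellFounded_lt (α := K)) _ hne with hi
      have hmin : ∀ m < i, x m = b m := by
        intro m hm
        by_contra hm2
        have : ¬ m < i := by
          rw [hi]
          exact WellFounded.not_lt_min (wellFounded_lt (α := K)) {i | x i ≠ b i} (x := m) hm2
        exact this hm
      have hxL : x ∈ Lv i := ⟨hx, hmin, hmem⟩
      exact Set.mem_biUnion (show i ∈ L from ⟨x, hxL⟩) hxL
  let X : K → (K → Bool) := fun l => if hl : (Lv l).Nonempty then hl.choose else b
  refine ⟨b, L, X, hL, ?_⟩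
  intro l hl
  have hX : X l = (show (Lv l).Nonempty from hl).choose := by
    simp only [X]
    rw [dif_pos (show (Lv l).Nonempty from hl)]
  have hspec := (show (Lv l).Nonempty from hl).choose_spec
  rw [hX]
  exact ⟨hspec.1.1, hspec.2.1, hspec.2.2⟩

omit [WellFoundedLT K] in
/-- Finite combs in a splitting set, with prescribed direction. -/
lemma exists_finite_comb (hμ : ℵ₀ ≤ μ) (P : (K → Bool) → (K → Bool) → Prop) [IsWellOrder (K → Bool) P]
    (A : Set (K → Bool)) (hA : ∀ a ∈ A, Sm μ {x | x ∈ A ∧ P x a}) (hS : Splits μ A)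
    (e : Bool) (n : ℕ) :
    ∀ (b : K → Bool) (k : K), ¬ Sm μ (N A b k) →
      ∃ Y : Finset (K → Bool), Y.card = n ∧ ↑Y ⊆ N A b k ∧
        ∀ x ∈ Y, ∀ y ∈ Y, ∀ k₁, Sp e k₁ x y → P y x ∧
          ∀ z ∈ Y, ∀ k₂, Sp e k₂ y z → k₁ < k₂ := by
  classical
  induction n with
  | zero => exact fun b k _ => ⟨∅, rfl, by simp, by simp⟩
  | succ n ih =>
    intro b k hbig
    obtain ⟨c, l, hkl, hcb, hc⟩ := hS b k hbig
    obtain ⟨Y, hYc, hYN, hY⟩ := ih (Function.update c l (!e)) l (hc (!e))
    -- choose the new point above all old ones in the well-order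
    have hbad : Sm μ (⋃ y ∈ (Y : Set (K → Bool)), {x | x ∈ A ∧ ¬ P y x}) := by
      refine (sm_finset hμ Y).biUnion hμ (fun y hy => ?_)
      have hyA : y ∈ A := (hYN hy).1
      refine ((hA y hyA).union hμ (sm_singleton hμ y)).mono ?_
      intro x hx
      rcases trichotomous_of P x y with h | h | h
      · exact Or.inl ⟨hx.1, h⟩
      · exact Or.inr h
      · exact absurd h hx.2
    obtain ⟨a, haN, ha⟩ : ∃ a ∈ N A (Function.update c l e) l, ∀ y ∈ Y, P y a := by
      by_contra hcon
      push Not at hcon
      apply hc e
      refine hbad.mono ?_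
      intro x hx
      obtain ⟨y, hy, hyx⟩ := hcon x hx
      exact Set.mem_biUnion (show y ∈ (Y : Set (K → Bool)) from hy) ⟨hx.1, hyx⟩
    have haY : a ∉ Y := fun h => irrefl_of P a (ha a h)
    have haSp : ∀ y ∈ Y, Sp e l a y := by
      intro y hy
      have hy' := hYN hy
      refine ⟨?_, ?_, ?_⟩
      · intro j hj
        rw [haN.2 j hj.le, hy'.2 j hj.le, Function.update_of_ne hj.ne, Function.update_of_ne hj.ne]
      · rw [haN.2 l le_rfl, Function.update_self]
      · rw [hy'.2 l le_rfl, Function.update_self]
    refine ⟨insert a Y, by rw [Finset.card_insert_of_notMem haY, hYc], ?_, ?_⟩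
    · intro x hx
      rw [Finset.coe_insert] at hx
      have key : ∀ e' : Bool, ∀ x ∈ N A (Function.update c l e') l, x ∈ N A b k := by
        intro e' x hx
        refine ⟨hx.1, fun j hj => ?_⟩
        have hjl : j < l := hj.trans_lt hkl
        rw [hx.2 j hjl.le, Function.update_of_ne hjl.ne]
        exact hcb j hj
      rcases hx with hx | hx
      · rw [hx]; exact key e a haN
      · exact key (!e) x (hYN hx)
    · intro x hx y hy k₁ h1
      rw [Finset.mem_insert] at hx hy
      rcases hx with rfl | hx
      · rcases hy with rfl | hy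
        · exact absurd h1 sp_irrefl
        · refine ⟨ha y hy, ?_⟩
          have hk1 : k₁ = l := sp_unique h1 (haSp y hy)
          intro z hz k₂ h2
          rw [Finset.mem_insert] at hz
          rcases hz with rfl | hz
          · exact absurd (haSp y hy) (fun h => sp_asymm h h2)
          · by_contra hle
            push Not at hle
            rw [hk1] at hle
            have e1 := (hYN hy).2 k₂ hle
            have e2 := (hYN hz).2 k₂ hle
            have e3 := h2.2.1
            have e4 := h2.2.2
            rw [e1] at e3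
            rw [e2, e3] at e4
            cases e <;> simp at e4
      · rcases hy with rfl | hy
        · exact absurd (haSp x hx) (fun h => sp_asymm h h1)
        · obtain ⟨h2, h3⟩ := hY x hx y hy k₁ h1
          refine ⟨h2, ?_⟩
          intro z hz k₂ h4
          rw [Finset.mem_insert] at hz
          rcases hz with rfl | hz
          · exact absurd (haSp y hy) (fun h => sp_asymm h h4)
          · exact h3 z hz k₂ h4

end Core

end Pool.Agent.Y587.TC
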