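import Pool.Agent.Y587.TC.Comb

set_option autoImplicit false

/-!
# Stepping up two-colourings with large finite homogeneous sets of both classes
-/

open Cardinal

universe u

namespace Pool.Agent.Y587.TC

/-- Every set with more than `μ` elements contains, for each class and each `n`, an `n`-element set
all of whose `m`-element subsets lie in that class. -/
def Good (μ : Cardinal.{u}) (m : ℕ) {X : Type u} (f : Finset X → Fin 2) : Prop :=
  ∀ A : Set X, μ < #A → ∀ (i : Fin 2) (n : ℕ),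
    ∃ Y : Finset X, Y.card = n ∧ ↑Y ⊆ A ∧ ∀ t ⊆ Y, t.card = m → f t = i

lemma exists_enum {α : Type u} (P : α → α → Prop) [IsWellOrder α P] (t : Finset α) (n : ℕ)
    (ht : t.card = n) : ∃ x : Fin n → α, Set.range x = ↑t ∧ ∀ i j, i < j → P (x i) (x j) := by
  classical
  let _ := linearOrderOfSTO P
  refine ⟨t.orderEmbOfFin ht, Finset.range_orderEmbOfFin t ht, fun i j hij => ?_⟩
  exact (t.orderEmbOfFin ht).strictMono hij

variable {K : Type u} [LinearOrder K] [WellFoundedLT K] {μ : Cardinal.{u}}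

/-- `x` is a comb with the levels `k` and the direction `e`. -/
def IsComb (e : Bool) {m : ℕ} (x : Fin (m + 1) → (K → Bool)) (k : Fin m → K) : Prop :=
  StrictMono k ∧ ∀ i : Fin m, Sp e (k i) (x i.castSucc) (x i.succ)

/-- The defining condition of class one. -/
def T1 (P : (K → Bool) → (K → Bool) → Prop) (f : Finset K → Fin 2) (m : ℕ)
    (t : Finset (K → Bool)) : Prop :=
  ∃ (x : Fin (m + 1) → (K → Bool)) (k : Fin m → K), (t : Set (K → Bool)) = Set.range x ∧
    ((∃ e, IsComb e x k ∧ (∀ i : Fin m, P (x i.castSucc) (x i.succ)) ∧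
        ∀ s : Finset K, (s : Set K) = Set.range k → f s = 1) ∨
      (IsComb true x k ∧ ∀ i : Fin m, P (x i.succ) (x i.castSucc)))

open Classical in
/-- The colouring one exponent higher. -/
noncomputable def up (P : (K → Bool) → (K → Bool) → Prop) (f : Finset K → Fin 2) (m : ℕ)
    (t : Finset (K → Bool)) : Fin 2 := if T1 P f m t then 1 else 0

/-- The records form a big set. -/
lemma exists_records (hμ : ℵ₀ ≤ μ) (P : (K → Bool) → (K → Bool) → Prop)
    [IsWellOrder (K → Bool) P] (x : K → (K → Bool)) (L : Set K) (hL : ¬ Sm μ L)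
    (hL1 : ∀ a ∈ L, Sm μ {b | b ∈ L ∧ b ≤ a})
    (hL2 : ∀ a ∈ L, Sm μ {b | b ∈ L ∧ ¬ P (x a) (x b)}) :
    ∃ L' ⊆ L, ¬ Sm μ L' ∧ ∀ a ∈ L', ∀ c ∈ L', a < c → P (x a) (x c) := by
  refine ⟨{c | c ∈ L ∧ ∀ a ∈ L, a < c → P (x a) (x c)}, fun c hc => hc.1, ?_,
    fun a ha c hc hac => hc.2 a ha.1 hac⟩
  intro hsm
  apply hL
  refine (hsm.biUnion hμ (f := fun c => {b | b ∈ L ∧ b ≤ c}) fun c hc => hL1 c hc.1).mono ?_
  intro a0 ha0
  have hne : {c | c ∈ L ∧ ∀ a ∈ L, a ≤ a0 → P (x a) (x c)}.Nonempty := by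
    by_contra hemp
    rw [Set.not_nonempty_iff_eq_empty] at hemp
    apply hL
    refine ((hL1 a0 ha0).biUnion hμ (f := fun a => {b | b ∈ L ∧ ¬ P (x a) (x b)})
      fun a ha => hL2 a ha.1).mono ?_
    intro b hb
    have hb' : b ∉ {c | c ∈ L ∧ ∀ a ∈ L, a ≤ a0 → P (x a) (x c)} := by
      rw [hemp]; exact Set.notMem_empty b
    have : ¬ ∀ a ∈ L, a ≤ a0 → P (x a) (x b) := fun h => hb' ⟨hb, h⟩
    push Not at this
    obtain ⟨a, ha, haa, hP⟩ := this
    exact Set.mem_biUnion (show a ∈ {b | b ∈ L ∧ b ≤ a0} from ⟨ha, haa⟩) ⟨hb, hP⟩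
  have hmem := WellFounded.min_mem (wellFounded_lt (α := K)) _ hne
  set c := WellFounded.min (wellFounded_lt (α := K)) _ hne with hc
  have hmin : ∀ a < c, a ∉ {c | c ∈ L ∧ ∀ a ∈ L, a ≤ a0 → P (x a) (x c)} := by
    intro a ha hcon
    have : ¬ a < c := by
      rw [hc]
      exact WellFounded.not_lt_min (wellFounded_lt (α := K)) _ hcon
    exact this ha
  have hrec : c ∈ {c | c ∈ L ∧ ∀ a ∈ L, a < c → P (x a) (x c)} := by
    refine ⟨hmem.1, fun a ha hac => ?_⟩
    by_cases haa : a ≤ a0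
    · exact hmem.2 a ha haa
    · have h1 := hmin a hac
      have : ¬ ∀ a' ∈ L, a' ≤ a0 → P (x a') (x a) := fun h => h1 ⟨ha, h⟩
      push Not at this
      obtain ⟨a', ha', haa', hP⟩ := this
      have h2 := hmem.2 a' ha' haa'
      rcases trichotomous_of P (x a) (x a') with h | h | h
      · exact _root_.trans h h2
      · rw [h]; exact h2
      · exact absurd h hP
  refine Set.mem_biUnion hrec ⟨ha0, ?_⟩
  by_contra hlt
  push Not at hlt
  exact irrefl_of P (x c) (hmem.2 c hmem.1 hlt.le)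

/-- A big root. -/
lemma exists_root (hμ : ℵ₀ ≤ μ) (A : Set (K → Bool)) (hA : ¬ Sm μ A) :
    ∃ (b : K → Bool) (k : K), ¬ Sm μ (N A b k) := by
  have hKne : (Set.univ : Set K).Nonempty := by
    by_contra hcon
    rw [Set.not_nonempty_iff_eq_empty, Set.univ_eq_empty_iff] at hcon
    apply hA
    apply sm_subsingleton hμ
    intro x _ y _
    funext k
    exact (hcon.false k).elim
  set k := WellFounded.min (wellFounded_lt (α := K)) _ hKne with hk
  have hmin : ∀ j ≤ k, j = k := by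
    intro j hj
    have : ¬ j < k := by
      rw [hk]
      exact WellFounded.not_lt_min (wellFounded_lt (α := K)) Set.univ (x := j) (Set.mem_univ j)
    exact le_antisymm hj (not_lt.1 this)
  by_contra hcon
  push Not at hcon
  apply hA
  refine ((hcon (fun _ => true) k).union hμ (hcon (fun _ => false) k)).mono ?_
  intro x hx
  cases hxk : x k with
  | true => exact Or.inl ⟨hx, fun j hj => by rw [hmin j hj, hxk]⟩
  | false => exact Or.inr ⟨hx, fun j hj => by rw [hmin j hj, hxk]⟩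

/-- The case of a splitting set. -/
lemma step_splits (hμ : ℵ₀ ≤ μ) (P : (K → Bool) → (K → Bool) → Prop)
    [IsWellOrder (K → Bool) P] (m : ℕ) (f : Finset K → Fin 2)
    (h : 1 ≤ m ∧ (m = 1 → ∀ s, f s = 0)) (A : Set (K → Bool)) (hA : ¬ Sm μ A)
    (hgood : ∀ a ∈ A, Sm μ {x | x ∈ A ∧ P x a}) (hS : Splits μ A) (i : Fin 2) (n : ℕ) :
    ∃ Y : Finset (K → Bool), Y.card = n ∧ ↑Y ⊆ A ∧
      ∀ t ⊆ Y, t.card = m + 1 → up P f m t = i := by
  classical
  obtain ⟨m, rfl⟩ : ∃ m', m = m' + 1 := ⟨m - 1, by omega⟩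
  obtain ⟨b, k, hbk⟩ := exists_root hμ A hA
  by_cases hi : i = 0
  · obtain ⟨Y, hYc, hYN, hY⟩ := exists_finite_comb hμ P A hgood hS false n b k hbk
    refine ⟨Y, hYc, fun y hy => (hYN hy).1, fun t ht _ => ?_⟩
    rw [hi]
    unfold up
    rw [if_neg]
    rintro ⟨x, k, htx, hcase⟩
    have hx : ∀ i, x i ∈ Y := fun i => by
      have : x i ∈ (t : Set (K → Bool)) := by rw [htx]; exact ⟨i, rfl⟩
      exact ht this
    rcases hcase with ⟨e, ⟨hk, hSp⟩, hP, hfs⟩ | ⟨⟨hk, hSp⟩, hP⟩
    · cases e with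
      | false =>
        exact asymm_of P (hP 0) (hY _ (hx _) _ (hx _) _ (hSp 0)).1
      | true =>
        have h0 : Sp false (k 0) (x (Fin.succ 0)) (x (Fin.castSucc 0)) := by
          simpa using sp_flip (hSp 0)
        rcases Nat.eq_zero_or_pos m with hm | hm
        · have h1 := hfs (Set.finite_range k).toFinset (by simp)
          rw [h.2 (by omega) _] at h1
          exact absurd h1 (by decide)
        · obtain ⟨m, rfl⟩ : ∃ m', m = m' + 1 := ⟨m - 1, by omega⟩
          have h1 : Sp false (k 1) (x (Fin.succ 1)) (x (Fin.castSucc 1)) := by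
            simpa using sp_flip (hSp 1)
          have h01 : (Fin.succ 0 : Fin (m + 1 + 1 + 1)) = Fin.castSucc 1 := rfl
          rw [h01] at h0
          exact lt_asymm ((hY _ (hx _) _ (hx _) _ h1).2 _ (hx _) _ h0)
            (hk (show (0 : Fin (m + 1 + 1)) < 1 from Fin.zero_lt_one))
    · have h0 : Sp false (k 0) (x (Fin.succ 0)) (x (Fin.castSucc 0)) := by
        simpa using sp_flip (hSp 0)
      exact asymm_of P (hP 0) (hY _ (hx _) _ (hx _) _ h0).1
  · have hi1 : i = 1 := by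
      rcases i with ⟨_ | _ | m, hm⟩
      · exact absurd rfl hi
      · rfl
      · omega
    obtain ⟨Y, hYc, hYN, hY⟩ := exists_finite_comb hμ P A hgood hS true n b k hbk
    refine ⟨Y, hYc, fun y hy => (hYN hy).1, fun t ht htc => ?_⟩
    rw [hi1]
    unfold up
    rw [if_pos]
    obtain ⟨x0, hx0, hP0⟩ := exists_enum P t (m + 1 + 1) htc
    have hx : ∀ i, x0 (Fin.rev i) ∈ Y := fun i => by
      have : x0 (Fin.rev i) ∈ (t : Set (K → Bool)) := by rw [← hx0]; exact ⟨_, rfl⟩
      exact ht this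
    have hP : ∀ i : Fin (m + 1), P (x0 (Fin.rev i.succ)) (x0 (Fin.rev i.castSucc)) := fun i =>
      hP0 _ _ (Fin.rev_lt_rev.2 (Fin.castSucc_lt_succ))
    have hex : ∀ i : Fin (m + 1), ∃ k, Sp true k (x0 (Fin.rev i.castSucc)) (x0 (Fin.rev i.succ)) := by
      intro i
      have hne : x0 (Fin.rev i.castSucc) ≠ x0 (Fin.rev i.succ) := by
        intro heq
        have h1 := hP i
        rw [heq] at h1
        exact irrefl_of P _ h1
      rcases sp_exists hne with ⟨k, hk⟩ | ⟨k, hk⟩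
      · exfalso
        have h2 : Sp true k (x0 (Fin.rev i.succ)) (x0 (Fin.rev i.castSucc)) := by
          simpa using sp_flip hk
        exact asymm_of P (hP i) (hY _ (hx _) _ (hx _) _ h2).1
      · exact ⟨k, by simpa using sp_flip hk⟩
    choose k hk using hex
    refine ⟨fun i => x0 (Fin.rev i), k, ?_, Or.inr ⟨⟨?_, hk⟩, hP⟩⟩
    · rw [← hx0]
      ext y
      constructor
      · rintro ⟨i, rfl⟩
        exact ⟨Fin.rev i, by simp⟩
      · rintro ⟨i, rfl⟩
        exact ⟨Fin.rev i, rfl⟩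
    · rw [Fin.strictMono_iff_lt_succ]
      intro i
      have h1 := hk i.castSucc
      have h2 := hk i.succ
      rw [← Fin.succ_castSucc] at h2
      exact (hY _ (hx _) _ (hx _) _ h1).2 _ (hx _) _ h2

end Pool.Agent.Y587.TC
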