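import Pool.Agent.Y587.TC.Step

set_option autoImplicit false

/-!
# Stepping up two-colourings: the case of a comb, and the tower
-/

open Cardinal

universe u

namespace Pool.Agent.Y587.TC

variable {K : Type u} [LinearOrder K] [WellFoundedLT K] {μ : Cardinal.{u}}

omit [WellFoundedLT K] in
/-- reading positions from the splitting data -/
lemma read_comb {e : Bool} {x : K → (K → Bool)} {L : Set K}
    (hSp : ∀ a ∈ L, ∀ c ∈ L, a < c → Sp e a (x a) (x c)) (a c : K) (ha : a ∈ L) (hc : c ∈ L)
    (e' : Bool) (k : K) (hk : Sp e' k (x a) (x c)) : (a < c ∧ k = a) ∨ (c < a ∧ k = c) := by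
  rcases lt_trichotomy a c with h | h | h
  · left
    have h1 := hSp a ha c hc h
    by_cases he : e' = e
    · subst he
      exact ⟨h, sp_unique hk h1⟩
    · exfalso
      have h2 := sp_flip hk
      have he2 : (!e') = e := by
        cases e' <;> cases e <;> simp at he <;> rfl
      rw [he2] at h2
      exact sp_asymm h1 h2
  · subst h
    exact absurd hk sp_irrefl
  · right
    have h1 := hSp c hc a ha h
    have h2 := sp_flip hk
    by_cases he : (!e') = e
    · rw [he] at h2
      exact ⟨h, sp_unique h2 h1⟩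
    · exfalso
      have he2 : e' = e := by
        cases e' <;> cases e <;> simp at he <;> rfl
      rw [he2] at hk
      exact sp_asymm h1 hk

omit [WellFoundedLT K] in
/-- The case of a comb. -/
lemma step_comb (P : (K → Bool) → (K → Bool) → Prop)
    [IsWellOrder (K → Bool) P] (m : ℕ) (f : Finset K → Fin 2) (hf : Good μ m f) (h : 2 ≤ m)
    (e : Bool) (x : K → (K → Bool)) (L : Set K) (hL : ¬ Sm μ L)
    (hSp : ∀ a ∈ L, ∀ c ∈ L, a < c → Sp e a (x a) (x c))
    (hP : ∀ a ∈ L, ∀ c ∈ L, a < c → P (x a) (x c)) (i : Fin 2) (n : ℕ) :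
    ∃ Y : Finset (K → Bool), Y.card = n ∧ ↑Y ⊆ x '' L ∧
      ∀ t ⊆ Y, t.card = m + 1 → up P f m t = i := by
  classical
  obtain ⟨Z, hZc, hZL, hZ⟩ := hf L (not_le.1 hL) i n
  have hinjL : Set.InjOn x L := by
    intro a ha c hc hac
    rcases lt_trichotomy a c with h | h | h
    · have := hSp a ha c hc h
      rw [hac] at this
      exact absurd this sp_irrefl
    · exact h
    · have := hSp c hc a ha h
      rw [hac] at this
      exact absurd this sp_irrefl
  have hinj : Set.InjOn x (Z : Set K) := hinjL.mono hZL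
  refine ⟨Z.image x, by rw [Finset.card_image_of_injOn hinj, hZc], ?_, fun t ht htc => ?_⟩
  · intro y hy
    rw [Finset.coe_image] at hy
    obtain ⟨a, ha, rfl⟩ := hy
    exact ⟨a, hZL ha, rfl⟩
  -- the level sets of combs lie in `Z`
  have hlev : ∀ k : Fin m → K, StrictMono k → (∀ j, k j ∈ Z) → ∀ s : Finset K,
      (s : Set K) = Set.range k → f s = i := by
    intro k hk hkZ s hs
    apply hZ s
    · intro a ha
      have ha' : a ∈ (s : Set K) := ha
      rw [hs] at ha'
      obtain ⟨j, rfl⟩ := ha'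
      exact hkZ j
    · have : s = Finset.univ.map ⟨k, hk.injective⟩ := by
        apply Finset.coe_injective
        rw [hs]
        simp
      rw [this, Finset.card_map, Finset.card_univ, Fintype.card_fin]
  by_cases hi : i = 0
  · rw [hi]
    unfold up
    rw [if_neg]
    rintro ⟨y, k, hty, hcase⟩
    have hex : ∀ j, ∃ a ∈ Z, x a = y j := by
      intro j
      have h1 : y j ∈ (t : Set (K → Bool)) := by rw [hty]; exact ⟨j, rfl⟩
      exact Finset.mem_image.1 (ht h1)
    choose l hlZ hl using hex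
    rcases hcase with ⟨e', ⟨hk, hS⟩, hPy, hfs⟩ | ⟨⟨hk, hS⟩, hPy⟩
    · have hr : ∀ j : Fin m, k j = l j.castSucc := by
        intro j
        have h1 := hS j
        rw [← hl, ← hl] at h1
        rcases read_comb hSp _ _ (hZL (hlZ _)) (hZL (hlZ _)) e' _ h1 with h2 | h2
        · exact h2.2
        · exfalso
          have h3 := hP _ (hZL (hlZ _)) _ (hZL (hlZ _)) h2.1
          rw [hl, hl] at h3
          exact asymm_of P h3 (hPy j)
      have h1 := hfs (Set.finite_range k).toFinset (by simp)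
      rw [hlev k hk (fun j => by rw [hr j]; exact hlZ _) _ (by simp), hi] at h1
      exact absurd h1 (by decide)
    · have hr : ∀ j : Fin m, l j.succ < l j.castSucc ∧ k j = l j.succ := by
        intro j
        have h1 := hS j
        rw [← hl, ← hl] at h1
        rcases read_comb hSp _ _ (hZL (hlZ _)) (hZL (hlZ _)) true _ h1 with h2 | h2
        · exfalso
          have h3 := hP _ (hZL (hlZ _)) _ (hZL (hlZ _)) h2.1
          rw [hl, hl] at h3
          exact asymm_of P h3 (hPy j)
        · exact h2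
      obtain ⟨m, rfl⟩ : ∃ m', m = m' + 2 := ⟨m - 2, by omega⟩
      have h1 : k 0 < k 1 := hk (show (0 : Fin (m + 2)) < 1 from Fin.zero_lt_one)
      rw [(hr 0).2, (hr 1).2] at h1
      have h2 := (hr 1).1
      have h01 : (Fin.castSucc 1 : Fin (m + 2 + 1)) = Fin.succ 0 := rfl
      rw [h01] at h2
      exact lt_asymm h1 h2
  · have hi1 : i = 1 := by
      rcases i with ⟨_ | _ | m, hm⟩
      · exact absurd rfl hi
      · rfl
      · omega
    rw [hi1]
    unfold up
    rw [if_pos]
    -- the index set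
    have hts : (Z.filter fun a => x a ∈ t).image x = t := by
      ext y
      rw [Finset.mem_image]
      constructor
      · rintro ⟨a, ha, rfl⟩
        exact (Finset.mem_filter.1 ha).2
      · intro hy
        obtain ⟨a, ha, rfl⟩ := Finset.mem_image.1 (ht hy)
        exact ⟨a, Finset.mem_filter.2 ⟨ha, hy⟩, rfl⟩
    have hsZ : Z.filter (fun a => x a ∈ t) ⊆ Z := Finset.filter_subset _ _
    have hsc : (Z.filter fun a => x a ∈ t).card = m + 1 := by
      rw [← htc, ← hts, Finset.card_image_of_injOn (hinj.mono (by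
        intro a ha
        exact hsZ ha)), hts]
    let l : Fin (m + 1) → K := (Z.filter fun a => x a ∈ t).orderEmbOfFin hsc
    have hlm : StrictMono l := ((Z.filter fun a => x a ∈ t).orderEmbOfFin hsc).strictMono
    have hlr : Set.range l = ((Z.filter fun a => x a ∈ t : Finset K) : Set K) :=
      Finset.range_orderEmbOfFin _ hsc
    have hlZ : ∀ j, l j ∈ Z := fun j => by
      have : l j ∈ ((Z.filter fun a => x a ∈ t : Finset K) : Set K) := by
        rw [← hlr]; exact ⟨j, rfl⟩
      exact hsZ this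
    have hkm : StrictMono fun j : Fin m => l j.castSucc := fun a b hab => hlm
      (Fin.castSucc_lt_castSucc_iff.2 hab)
    refine ⟨fun j => x (l j), fun j => l j.castSucc, ?_, Or.inl ⟨e, ⟨hkm, fun j => ?_⟩,
      fun j => ?_, fun s hs => ?_⟩⟩
    · rw [show (Set.range fun j => x (l j)) = x '' Set.range l from by
        rw [← Set.range_comp]; rfl, hlr]
      rw [← Finset.coe_image, hts]
    · exact hSp _ (hZL (hlZ _)) _ (hZL (hlZ _)) (hlm Fin.castSucc_lt_succ)
    · exact hP _ (hZL (hlZ _)) _ (hZL (hlZ _)) (hlm Fin.castSucc_lt_succ)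
    · rw [hlev _ hkm (fun j => hlZ _) s hs, hi1]

/-- One step up. -/
theorem step (hμ : ℵ₀ ≤ μ) (P : (K → Bool) → (K → Bool) → Prop)
    [IsWellOrder (K → Bool) P] (m : ℕ) (f : Finset K → Fin 2) (hf : Good μ m f)
    (h : 2 ≤ m ∨ (m = 1 ∧ #K ≤ μ ∧ ∀ s, f s = 0)) : Good μ (m + 1) (up P f m) := by
  intro A hA i n
  have hA0 : ¬ Sm μ A := not_le.2 hA
  obtain ⟨A', hA'A, hA', hgood⟩ := exists_good P A hA0
  suffices hsuff : ∃ Y : Finset (K → Bool), Y.card = n ∧ ↑Y ⊆ A' ∧
      ∀ t ⊆ Y, t.card = m + 1 → up P f m t = i by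
    obtain ⟨Y, h1, h2, h3⟩ := hsuff
    exact ⟨Y, h1, h2.trans hA'A, h3⟩
  by_cases hS : Splits μ A'
  · refine step_splits hμ P m f ⟨?_, fun hm => ?_⟩ A' hA' hgood hS i n
    · rcases h with h | h
      · omega
      · omega
    · rcases h with h | h
      · omega
      · exact h.2.2
  · obtain ⟨b, L, x, hL, hx⟩ := exists_comb hμ A' hS
    have h2 : 2 ≤ m := by
      rcases h with h | h
      · exact h
      · exact absurd ((mk_set_le L).trans h.2.1) hL
    -- make the direction constant
    obtain ⟨e, L1, hL1L, hL1, hdir⟩ : ∃ (e : Bool) (L1 : Set K), L1 ⊆ L ∧ ¬ Sm μ L1 ∧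
        ∀ l ∈ L1, x l l = e := by
      by_cases h : Sm μ {l | l ∈ L ∧ x l l = true}
      · refine ⟨false, {l | l ∈ L ∧ x l l = false}, fun l hl => hl.1, ?_, fun l hl => hl.2⟩
        intro h'
        apply hL
        refine (h.union hμ h').mono ?_
        intro l hl
        cases hxl : x l l with
        | true => exact Or.inl ⟨hl, hxl⟩
        | false => exact Or.inr ⟨hl, hxl⟩
      · exact ⟨true, {l | l ∈ L ∧ x l l = true}, fun l hl => hl.1, h, fun l hl => hl.2⟩
    obtain ⟨L2, hL2L, hL2, hgood2⟩ := exists_good (α := K) (· < ·) L1 hL1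
    have hxL2 : ∀ l ∈ L2, x l ∈ A' ∧ (∀ j < l, x l j = b j) ∧ x l l = e ∧ b l = !e := by
      intro l hl
      obtain ⟨h1, h2, h3⟩ := hx l (hL1L (hL2L hl))
      have h4 := hdir l (hL2L hl)
      refine ⟨h1, h2, h4, ?_⟩
      rw [h4] at h3
      exact bool_not h3.symm
    have hSp : ∀ a ∈ L2, ∀ c ∈ L2, a < c → Sp e a (x a) (x c) := by
      intro a ha c hc hac
      obtain ⟨-, h2, h3, h4⟩ := hxL2 a ha
      obtain ⟨-, h2', -, -⟩ := hxL2 c hc
      exact ⟨fun j hj => (h2 j hj).trans (h2' j (hj.trans hac)).symm, h3, (h2' a hac).trans h4⟩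
    have hinj : Set.InjOn x L2 := by
      intro a ha c hc hac
      rcases lt_trichotomy a c with h | h | h
      · have := hSp a ha c hc h
        rw [hac] at this
        exact absurd this sp_irrefl
      · exact h
      · have := hSp c hc a ha h
        rw [hac] at this
        exact absurd this sp_irrefl
    have hc1 : ∀ a ∈ L2, Sm μ {c | c ∈ L2 ∧ c ≤ a} := by
      intro a ha
      refine ((hgood2 a ha).union hμ (sm_singleton hμ a)).mono ?_
      rintro c ⟨h1, h2⟩
      rcases lt_or_eq_of_le h2 with h | h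
      · exact Or.inl ⟨h1, h⟩
      · exact Or.inr h
    have hc2 : ∀ a ∈ L2, Sm μ {c | c ∈ L2 ∧ ¬ P (x a) (x c)} := by
      intro a ha
      have h1 : Sm μ ({y | y ∈ A' ∧ P y (x a)} ∪ {x a}) :=
        (hgood (x a) (hxL2 a ha).1).union hμ (sm_singleton hμ _)
      have h2 : Set.MapsTo x {c | c ∈ L2 ∧ ¬ P (x a) (x c)}
          ({y | y ∈ A' ∧ P y (x a)} ∪ {x a}) := by
        rintro c ⟨h3, h4⟩
        rcases trichotomous_of P (x c) (x a) with h | h | h
        · exact Or.inl ⟨(hxL2 c h3).1, h⟩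
        · exact Or.inr h
        · exact absurd h h4
      have h5 : Set.InjOn x {c | c ∈ L2 ∧ ¬ P (x a) (x c)} := hinj.mono (fun c hc => hc.1)
      exact sm_of_injOn h2 h5 h1
    obtain ⟨L3, hL3L, hL3, hP⟩ := exists_records hμ P x L2 hL2 hc1 hc2
    obtain ⟨Y, h3, h4, h5⟩ := step_comb P m f hf h2 e x L3 hL3
      (fun a ha c hc => hSp a (hL3L ha) c (hL3L hc)) hP i n
    refine ⟨Y, h3, h4.trans ?_, h5⟩
    rintro _ ⟨a, ha, rfl⟩
    exact (hxL2 a (hL3L ha)).1

/-- Iterated exponentials `μ, 2 ^ μ, 2 ^ 2 ^ μ, …` -/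
def tower (μ : Cardinal.{u}) : ℕ → Cardinal.{u}
  | 0 => μ
  | n + 1 => 2 ^ tower μ n

/-- pull back a colouring -/
theorem Good.comap {m : ℕ} {X Y : Type u} {f : Finset Y → Fin 2} (hf : Good μ m f) (φ : X ↪ Y) :
    ∃ g : Finset X → Fin 2, Good μ m g := by
  classical
  refine ⟨fun t => f (t.map φ), ?_⟩
  intro A hA i n
  obtain ⟨Y', hc, hY, h⟩ := hf (φ '' A) (by rwa [mk_image_eq φ.injective]) i n
  have hpre : (Y'.preimage φ φ.injective.injOn).map φ = Y' := by
    ext y
    rw [Finset.mem_map]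
    constructor
    · rintro ⟨a, ha, rfl⟩
      exact Finset.mem_preimage.1 ha
    · intro hy
      obtain ⟨a, ha, rfl⟩ := hY hy
      exact ⟨a, Finset.mem_preimage.2 hy, rfl⟩
  refine ⟨Y'.preimage φ φ.injective.injOn, ?_, ?_, ?_⟩
  · rw [← hc, ← hpre, Finset.card_map, hpre]
  · intro a ha
    have h1 : φ a ∈ Y' := Finset.mem_preimage.1 ha
    obtain ⟨a', ha', haa⟩ := hY h1
    rwa [← φ.injective haa]
  · intro t ht htc
    refine h _ ?_ (by rw [Finset.card_map, htc])
    rw [← hpre]
    exact Finset.map_subset_map.2 ht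

theorem exists_good_coloring (hμ : ℵ₀ ≤ μ) (j : ℕ) : ∀ X : Type u, #X ≤ tower μ (j + 1) →
    ∃ g : Finset X → Fin 2, Good μ (j + 2) g := by
  induction j with
  | zero =>
    intro X hX
    have hf : Good μ 1 (fun _ : Finset μ.ord.ToType => (0 : Fin 2)) := by
      intro A hA
      exact absurd ((mk_set_le A).trans (mk_ord_toType μ).le) (not_le.2 hA)
    have hs := step (K := μ.ord.ToType) hμ WellOrderingRel 1 _ hf
      (Or.inr ⟨rfl, (mk_ord_toType μ).le, fun _ => rfl⟩)
    obtain ⟨φ⟩ : Nonempty (X ↪ (μ.ord.ToType → Bool)) := by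
      rw [← Cardinal.le_def, mk_arrow, mk_ord_toType]
      simpa [tower] using hX
    exact hs.comap φ
  | succ j ih =>
    intro X hX
    obtain ⟨f, hf⟩ := ih (tower μ (j + 1)).ord.ToType (mk_ord_toType _).le
    have hs := step (K := (tower μ (j + 1)).ord.ToType) hμ WellOrderingRel (j + 2) f hf
      (Or.inl (by omega))
    obtain ⟨φ⟩ : Nonempty (X ↪ ((tower μ (j + 1)).ord.ToType → Bool)) := by
      rw [← Cardinal.le_def, mk_arrow, mk_ord_toType]
      simpa [tower] using hX
    exact hs.comap φ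

end Pool.Agent.Y587.TC
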